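import Pool.Agent.X7.CrossSperner.UnionBound

open Finset
open scoped FinsetFamily

namespace Pool.Agent.X7.CrossSperner

theorem final_numeric (P k b j : ℤ) (hP : 1 ≤ P) (hk : 1 ≤ k) (hb : 0 ≤ b)
    (h1 : j ≤ 2 * P ^ 2 - (k + b)) (h2 : j ≤ (k - 1) * b)
    (h3 : P ≤ k → P ≤ b + 1 → j + (k + b) + P ^ 2 ≤ P * k + P * (b + 1)) :
    j ≤ 2 * P ^ 2 - 3 * P + 1 := by
  by_cases hM : 3 * P - 1 ≤ k + b
  · linarith
  push Not at hM
  by_cases hkP : P ≤ k
  · by_cases hbP : P ≤ b + 1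
    · have := h3 hkP hbP
      nlinarith [mul_nonneg (by linarith : (0:ℤ) ≤ P - 1) (by linarith : (0:ℤ) ≤ 3 * P - 2 - (k + b))]
    · push Not at hbP
      have hb2 : b ≤ P - 2 := by omega
      have hk2 : k - 1 ≤ 3 * P - 3 - b := by omega
      have e1 : (k - 1) * b ≤ (3 * P - 3 - b) * b := mul_le_mul_of_nonneg_right hk2 hb
      have e2 : 0 ≤ (P - 2 - b) * (2 * P - 1 - b) := mul_nonneg (by linarith) (by linarith)
      nlinarith
  · push Not at hkP
    have hb2 : b ≤ 3 * P - 2 - k := by omega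
    have e1 : (k - 1) * b ≤ (k - 1) * (3 * P - 2 - k) :=
      mul_le_mul_of_nonneg_left hb2 (by linarith)
    have e2 : 0 ≤ (P - 1 - k) * (2 * P - k) := mul_nonneg (by omega) (by linarith)
    nlinarith

theorem upper {n : ℕ} (d : ℕ) (hn : n = 2 * d + 1) (A B : Finset (Finset (Fin n)))
    (h : ∀ X ∈ A, ∀ Y ∈ B, ¬ X ⊆ Y ∧ ¬ Y ⊆ X) :
    ((A ⊼ B).card : ℤ) ≤ 2 * (2 ^ d) ^ 2 - 3 * 2 ^ d + 1 := by
  classical
  have hP : (1:ℤ) ≤ 2 ^ d := one_le_pow₀ (by norm_num)
  by_cases hA : A = ∅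
  · subst hA
    simp only [empty_infs, card_empty, Nat.cast_zero]
    nlinarith
  by_cases hB : B = ∅
  · subst hB
    simp only [infs_empty, card_empty, Nat.cast_zero]
    nlinarith
  obtain ⟨A0, hA0⟩ := nonempty_iff_ne_empty.2 hA
  obtain ⟨B0, hB0⟩ := nonempty_iff_ne_empty.2 hB
  set J := Aᶜˢ ⊻ Bᶜˢ with hJ
  have hJcard : (A ⊼ B).card = J.card := by
    rw [hJ, ← compls_infs, card_compls]
  set K := univ.filter (fun S : Finset (Fin n) => ∃ X ∈ A, S ⊆ Xᶜ) with hK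
  set L := univ.filter (fun S : Finset (Fin n) => ∃ Y ∈ B, S ⊆ Yᶜ) with hL
  set C := insert ∅ (L \ K) with hC
  have memK : ∀ S, S ∈ K ↔ ∃ X ∈ A, S ⊆ Xᶜ := by intro S; simp [hK]
  have memL : ∀ S, S ∈ L ↔ ∃ Y ∈ B, S ⊆ Yᶜ := by intro S; simp [hL]
  have hKlow : IsLowerSet (K : Set (Finset (Fin n))) := by
    intro S T hTS hS
    rw [mem_coe, memK] at hS ⊢
    obtain ⟨X, hX, hSX⟩ := hS
    exact ⟨X, hX, hTS.trans hSX⟩
  have h0K : ∅ ∈ K := (memK _).2 ⟨A0, hA0, empty_subset _⟩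
  have h0L : ∅ ∈ L := (memL _).2 ⟨B0, hB0, empty_subset _⟩
  -- complements of members
  have hAK : ∀ X ∈ A, Xᶜ ∈ K \ L := by
    intro X hX
    rw [mem_sdiff, memK, memL]
    refine ⟨⟨X, hX, Subset.rfl⟩, ?_⟩
    rintro ⟨Y, hY, hXY⟩
    exact (h X hX Y hY).2 (compl_subset_compl.1 hXY)
  have hBL : ∀ Y ∈ B, Yᶜ ∈ L \ K := by
    intro Y hY
    rw [mem_sdiff, memK, memL]
    refine ⟨⟨Y, hY, Subset.rfl⟩, ?_⟩
    rintro ⟨X, hX, hXY⟩
    exact (h X hX Y hY).1 (compl_subset_compl.1 hXY)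
  have memJ : ∀ S, S ∈ J ↔ ∃ X ∈ A, ∃ Y ∈ B, Xᶜ ∪ Yᶜ = S := by
    intro S
    rw [hJ, mem_sups]
    constructor
    · rintro ⟨X, hX, Y, hY, hS⟩
      rw [mem_compls] at hX hY
      exact ⟨Xᶜ, hX, Yᶜ, hY, by simpa using hS⟩
    · rintro ⟨X, hX, Y, hY, hS⟩
      exact ⟨Xᶜ, by rw [mem_compls]; simpa using hX, Yᶜ, by rw [mem_compls]; simpa using hY, hS⟩
  have hJKB : J ⊆ (K \ L) ⊻ (L \ K) := by
    intro S hS
    rw [memJ] at hS
    obtain ⟨X, hX, Y, hY, hS⟩ := hS
    rw [mem_sups]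
    exact ⟨Xᶜ, hAK X hX, Yᶜ, hBL Y hY, hS⟩
  have hJdisj : Disjoint J (K ∪ (L \ K)) := by
    rw [disjoint_left]
    intro S hS hS2
    rw [memJ] at hS
    obtain ⟨X, hX, Y, hY, hS⟩ := hS
    have hXS : Xᶜ ⊆ S := by rw [← hS]; exact subset_union_left
    have hYS : Yᶜ ⊆ S := by rw [← hS]; exact subset_union_right
    rw [mem_union] at hS2
    rcases hS2 with h2 | h2
    · obtain ⟨X', hX', hSX'⟩ := (memK _).1 h2
      exact (h X' hX' Y hY).1 (compl_subset_compl.1 (hYS.trans hSX'))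
    · obtain ⟨Y', hY', hSY'⟩ := (memL _).1 (mem_sdiff.1 h2).1
      exact (h X hX Y' hY').2 (compl_subset_compl.1 (hXS.trans hSY'))
  have hKLdisj : Disjoint K (L \ K) := disjoint_sdiff
  have hcardKL : (K ∪ (L \ K)).card = K.card + (L \ K).card := card_union_of_disjoint hKLdisj
  have hcardC : C.card = (L \ K).card + 1 := by
    rw [hC, card_insert_of_notMem]
    simp [h0K]
  have hsubD : J ∪ (K ∪ (L \ K)) ⊆ K ⊻ C := by
    intro S hS
    rw [mem_union, mem_union] at hS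
    rw [mem_sups]
    rcases hS with h1 | h1 | h1
    · have := hJKB h1
      rw [mem_sups] at this
      obtain ⟨X, hX, Y, hY, hXY⟩ := this
      exact ⟨X, (mem_sdiff.1 hX).1, Y, mem_insert_of_mem hY, hXY⟩
    · exact ⟨S, h1, ∅, mem_insert_self _ _, by simp⟩
    · exact ⟨∅, h0K, S, mem_insert_of_mem h1, by simp⟩
  have hcardD : J.card + (K.card + (L \ K).card) ≤ (K ⊻ C).card := by
    rw [← hcardKL, ← card_union_of_disjoint hJdisj]
    exact card_le_card hsubD
  have hcardU : J.card + (K.card + (L \ K).card) ≤ 2 ^ n := by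
    rw [← hcardKL, ← card_union_of_disjoint hJdisj]
    refine (card_le_univ _).trans ?_
    simp
  have hKL1 : (K \ L).card + 1 ≤ K.card := by
    have : (K \ L).card < K.card := by
      apply card_lt_card
      rw [ssubset_iff_of_subset sdiff_subset]
      exact ⟨∅, h0K, by simp [h0L]⟩
    omega
  have hprod : J.card ≤ (K \ L).card * (L \ K).card :=
    (card_le_card hJKB).trans (card_sups_le _ _)
  rw [hJcard]
  have hKpos : 1 ≤ K.card := card_pos.2 ⟨∅, h0K⟩
  apply final_numeric (2 ^ d) K.card (L \ K).card J.card hP (by exact_mod_cast hKpos)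
    (by positivity)
  · have h5 : ((J.card : ℤ) + (K.card + (L \ K).card)) ≤ 2 ^ n := by exact_mod_cast hcardU
    have h6 : (2:ℤ) ^ n = 2 * (2 ^ d) ^ 2 := by rw [hn, pow_succ, pow_mul']; ring
    rw [h6] at h5
    linarith
  · have h5 : (J.card : ℤ) ≤ (K \ L).card * (L \ K).card := by exact_mod_cast hprod
    refine h5.trans (mul_le_mul_of_nonneg_right ?_ (by positivity))
    have : ((K \ L).card : ℤ) + 1 ≤ K.card := by exact_mod_cast hKL1
    linarith
  · intro h5 h6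
    have h7 := union_bound (univ : Finset (Fin n)) K C d d (fun S _ => subset_univ S)
      (fun S _ => subset_univ S) hKlow (by rw [card_univ, Fintype.card_fin]; omega)
      (by exact_mod_cast h5) (by rw [hcardC]; exact_mod_cast h6)
    rw [hcardC, pow_add] at h7
    have h8 : ((J.card : ℤ) + (K.card + (L \ K).card)) ≤ (K ⊻ C).card := by exact_mod_cast hcardD
    push_cast at h7 ⊢
    nlinarith

theorem card_ssubs {n : ℕ} (X : Finset (Fin n)) : X.ssubsets.card = 2 ^ X.card - 1 := by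
  rw [ssubsets, card_erase_of_mem (mem_powerset_self _), card_powerset]

theorem lower {n : ℕ} (X Y : Finset (Fin n)) (hXY : Disjoint X Y) :
    ∃ A B : Finset (Finset (Fin n)), (∀ S ∈ A, ∀ T ∈ B, ¬ S ⊆ T ∧ ¬ T ⊆ S) ∧
      (A ⊼ B).card = (2 ^ X.card - 1) * (2 ^ Y.card - 1) := by
  classical
  refine ⟨X.ssubsets.image (fun S => S ∪ Y), Y.ssubsets.image (fun S => X ∪ S), ?_, ?_⟩
  · intro S hS T hT
    rw [mem_image] at hS hT
    obtain ⟨S', hS', rfl⟩ := hS
    obtain ⟨T', hT', rfl⟩ := hT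
    rw [mem_ssubsets] at hS' hT'
    constructor
    · intro h
      apply hT'.2
      intro y hy
      have : y ∈ X ∪ T' := h (mem_union_right _ hy)
      rcases mem_union.1 this with h1 | h1
      · exact absurd hy (disjoint_left.1 hXY h1)
      · exact h1
    · intro h
      apply hS'.2
      intro x hx
      have : x ∈ S' ∪ Y := h (mem_union_left _ hx)
      rcases mem_union.1 this with h1 | h1
      · exact h1
      · exact absurd h1 (disjoint_left.1 hXY hx)
  · have key : ∀ S ∈ X.ssubsets, ∀ T ∈ Y.ssubsets, (S ∪ Y) ∩ (X ∪ T) = S ∪ T := by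
      intro S hS T hT
      rw [mem_ssubsets] at hS hT
      ext z
      simp only [mem_inter, mem_union]
      constructor
      · rintro ⟨h1 | h1, h2 | h2⟩
        · exact Or.inl h1
        · exact Or.inl h1
        · exact absurd h1 (disjoint_left.1 hXY h2)
        · exact Or.inr h2
      · rintro (h1 | h1)
        · exact ⟨Or.inl h1, Or.inl (hS.1 h1)⟩
        · exact ⟨Or.inr (hT.1 h1), Or.inr h1⟩
    have himg : (X.ssubsets.image (fun S => S ∪ Y)) ⊼ (Y.ssubsets.image (fun S => X ∪ S)) =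
        (X.ssubsets ×ˢ Y.ssubsets).image (fun p => p.1 ∪ p.2) := by
      ext Z
      simp only [mem_infs, mem_image, mem_product, Prod.exists]
      constructor
      · rintro ⟨_, ⟨S, hS, rfl⟩, _, ⟨T, hT, rfl⟩, hZ⟩
        exact ⟨S, T, ⟨hS, hT⟩, by rw [← hZ]; exact (key S hS T hT).symm⟩
      · rintro ⟨S, T, ⟨hS, hT⟩, hZ⟩
        exact ⟨_, ⟨S, hS, rfl⟩, _, ⟨T, hT, rfl⟩, by rw [← hZ]; exact key S hS T hT⟩
    rw [himg, card_image_of_injOn, card_product, card_ssubs, card_ssubs]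
    rintro ⟨S, T⟩ hST ⟨S', T'⟩ hST' heq
    simp only [coe_product, Set.mem_prod, mem_coe, mem_ssubsets] at hST hST'
    simp only at heq
    have e1 : ∀ (S T : Finset (Fin n)), S ⊆ X → T ⊆ Y → (S ∪ T) ∩ X = S := by
      intro S T hS hT
      ext z
      simp only [mem_inter, mem_union]
      constructor
      · rintro ⟨h1 | h1, h2⟩
        · exact h1
        · exact absurd (hT h1) (disjoint_left.1 hXY h2)
      · intro h1
        exact ⟨Or.inl h1, hS h1⟩
    have e2 : ∀ (S T : Finset (Fin n)), S ⊆ X → T ⊆ Y → (S ∪ T) ∩ Y = T := by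
      intro S T hS hT
      ext z
      simp only [mem_inter, mem_union]
      constructor
      · rintro ⟨h1 | h1, h2⟩
        · exact absurd h2 (disjoint_left.1 hXY (hS h1))
        · exact h1
      · intro h1
        exact ⟨Or.inr h1, hT h1⟩
    rw [Prod.mk.injEq]
    constructor
    · rw [← e1 S T hST.1.1 hST.2.1, heq, e1 S' T' hST'.1.1 hST'.2.1]
    · rw [← e2 S T hST.1.1 hST.2.1, heq, e2 S' T' hST'.1.1 hST'.2.1]

end Pool.Agent.X7.CrossSperner
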