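import Mathlib

open Finset
open scoped FinsetFamily

namespace Pool.Agent.X7.CrossSperner

theorem numeric (P Q k0 k1 l0 l1 D0 D1 Da Db : ℤ) (hk1 : k1 ≤ k0) (hk1' : 0 ≤ k1) (hl0 : 0 ≤ l0)
    (hl1 : 0 ≤ l1) (hP : P ≤ k0 + k1) (hQ : Q ≤ l0 + l1) (hP1 : 1 ≤ P) (hQ1 : 1 ≤ Q)
    (hP2 : k0 + k1 < 2 * P) (hQ2 : l0 + l1 < 2 * Q)
    (hD0 : D0 ≤ P * Q) (hD1 : D1 ≤ P * Q) (hD1' : D1 ≤ Da + Db) (hD0' : D0 ≤ k0 * l0)
    (hDa : Da ≤ k1 * l0) (hDb : Db ≤ k0 * l1)
    (hPd : P = 1 ∨ ∃ P1, P = 2 * P1) (hQd : Q = 1 ∨ ∃ Q1, Q = 2 * Q1)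
    (ih1 : ∀ P1, P = 2 * P1 → P1 ≤ k0 → Q ≤ l0 → D0 + P1 * Q ≤ Q * k0 + P1 * l0)
    (ih2 : ∀ P1, P = 2 * P1 → P1 ≤ k1 → Q ≤ l0 → Da + P1 * Q ≤ Q * k1 + P1 * l0)
    (ih3 : ∀ Q1, Q = 2 * Q1 → P ≤ k0 → Q1 ≤ l0 → D0 + P * Q1 ≤ Q1 * k0 + P * l0)
    (ih4 : ∀ Q1, Q = 2 * Q1 → P ≤ k0 → Q1 ≤ l1 → Db + P * Q1 ≤ Q1 * k0 + P * l1) :
    D0 + D1 + P * Q ≤ Q * (k0 + k1) + P * (l0 + l1) := by
  by_cases h1 : Q ≤ l0
  · by_cases h2 : P ≤ k0
    · nlinarith [mul_nonneg (by linarith : (0:ℤ) ≤ P - k1) (by linarith : (0:ℤ) ≤ l0 - Q),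
        mul_nonneg (by linarith : (0:ℤ) ≤ Q - l1) (by linarith : (0:ℤ) ≤ k0 - P)]
    · push Not at h2
      rcases hPd with h | ⟨P1, hPP⟩
      · exfalso; omega
      · have hk0 : P1 ≤ k0 := by omega
        have e1 := ih1 P1 hPP hk0 h1
        have e2 : Da + P1 * Q ≤ Q * k1 + P1 * l0 := by
          by_cases h3 : P1 ≤ k1
          · exact ih2 P1 hPP h3 h1
          · push Not at h3
            nlinarith [mul_nonneg (by linarith : (0:ℤ) ≤ P1 - k1) (by linarith : (0:ℤ) ≤ l0 - Q)]
        have e3 : Db ≤ P * l1 := hDb.trans (mul_le_mul_of_nonneg_right h2.le hl1)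
        subst hPP
        nlinarith
  · push Not at h1
    by_cases h2 : Q ≤ l1
    · by_cases h3 : P ≤ k0
      · nlinarith [mul_nonneg (by linarith : (0:ℤ) ≤ k0 - P) (by linarith : (0:ℤ) ≤ Q - l0),
          mul_nonneg (by linarith : (0:ℤ) ≤ Q) hk1',
          mul_nonneg (by linarith : (0:ℤ) ≤ P) (by linarith : (0:ℤ) ≤ l1 - Q)]
      · push Not at h3
        nlinarith [mul_nonneg (by linarith : (0:ℤ) ≤ P - k0) hl0,
          mul_nonneg (by linarith : (0:ℤ) ≤ Q) (by linarith : (0:ℤ) ≤ k0 + k1 - P),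
          mul_nonneg (by linarith : (0:ℤ) ≤ P) (by linarith : (0:ℤ) ≤ l1 - Q)]
    · push Not at h2
      by_cases h3 : P ≤ k0
      · rcases hQd with h | ⟨Q1, hQQ⟩
        · exfalso; omega
        · have e1 : D0 + P * Q1 ≤ Q1 * k0 + P * l0 := by
            by_cases h4 : Q1 ≤ l0
            · exact ih3 Q1 hQQ h3 h4
            · push Not at h4
              nlinarith [mul_nonneg (by linarith : (0:ℤ) ≤ k0 - P) (by linarith : (0:ℤ) ≤ Q1 - l0)]
          have e2 : Db + P * Q1 ≤ Q1 * k0 + P * l1 := by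
            by_cases h4 : Q1 ≤ l1
            · exact ih4 Q1 hQQ h3 h4
            · push Not at h4
              nlinarith [mul_nonneg (by linarith : (0:ℤ) ≤ k0 - P) (by linarith : (0:ℤ) ≤ Q1 - l1)]
          have e3 : Da ≤ k1 * Q := hDa.trans (mul_le_mul_of_nonneg_left h1.le hk1')
          subst hQQ
          nlinarith
      · push Not at h3
        have e1 : (k0 + k1 - P) * (l0 + l1 - Q) ≤ k1 * l1 := by
          apply mul_le_mul (by linarith) (by linarith) (by linarith) hk1'
        nlinarith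

variable {α : Type*} [DecidableEq α]

theorem sups_nonMember (a : α) (K B : Finset (Finset α)) :
    (K ⊻ B).nonMemberSubfamily a ⊆ K.nonMemberSubfamily a ⊻ B.nonMemberSubfamily a := by
  intro S hS
  rw [mem_nonMemberSubfamily, mem_sups] at hS
  obtain ⟨⟨X, hX, Y, hY, rfl⟩, ha⟩ := hS
  simp only [sup_eq_union, mem_union, not_or] at ha
  rw [mem_sups]
  exact ⟨X, mem_nonMemberSubfamily.2 ⟨hX, ha.1⟩, Y, mem_nonMemberSubfamily.2 ⟨hY, ha.2⟩, rfl⟩

theorem sups_member (a : α) (K B : Finset (Finset α)) (hK : IsLowerSet (K : Set (Finset α))) :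
    (K ⊻ B).memberSubfamily a ⊆ (K.memberSubfamily a ⊻ B.nonMemberSubfamily a) ∪
      (K.nonMemberSubfamily a ⊻ B.memberSubfamily a) := by
  intro S hS
  rw [mem_memberSubfamily, mem_sups] at hS
  obtain ⟨⟨X, hX, Y, hY, hXY⟩, ha⟩ := hS
  simp only [sup_eq_union] at hXY
  have hSe : S = (X.erase a) ∪ (Y.erase a) := by
    rw [← erase_union_distrib, hXY, erase_insert ha]
  rw [mem_union, mem_sups, mem_sups]
  by_cases hYa : a ∈ Y
  · right
    refine ⟨X.erase a, ?_, Y.erase a, ?_, hSe.symm⟩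
    · rw [mem_nonMemberSubfamily]
      exact ⟨hK (erase_subset a X) hX, notMem_erase a X⟩
    · rw [mem_memberSubfamily, insert_erase hYa]
      exact ⟨hY, notMem_erase a Y⟩
  · left
    have hXa : a ∈ X := by
      have : a ∈ X ∪ Y := by rw [hXY]; exact mem_insert_self a S
      rcases mem_union.1 this with h | h
      · exact h
      · exact absurd h hYa
    refine ⟨X.erase a, ?_, Y.erase a, ?_, hSe.symm⟩
    · rw [mem_memberSubfamily, insert_erase hXa]
      exact ⟨hX, notMem_erase a X⟩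
    · rw [erase_eq_of_notMem hYa, mem_nonMemberSubfamily]
      exact ⟨hY, hYa⟩

omit [DecidableEq α] in
theorem card_le_of_subset (u : Finset α) (D : Finset (Finset α)) (hD : ∀ S ∈ D, S ⊆ u) :
    D.card ≤ 2 ^ u.card := by
  rw [← card_powerset]
  exact card_le_card (fun S hS => mem_powerset.2 (hD S hS))

theorem sups_subset_ground (u : Finset α) (K B : Finset (Finset α)) (hK : ∀ S ∈ K, S ⊆ u)
    (hB : ∀ S ∈ B, S ⊆ u) : ∀ S ∈ K ⊻ B, S ⊆ u := by
  intro S hS
  rw [mem_sups] at hS
  obtain ⟨X, hX, Y, hY, rfl⟩ := hS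
  exact union_subset (hK X hX) (hB Y hY)

/-- Main union bound: `K` a down-set and `B` an arbitrary family of subsets of an `n`-set,
`s + t = n - 1`, `|K| ≥ 2^s`, `|B| ≥ 2^t`; then
`|{X ∪ Y : X ∈ K, Y ∈ B}| ≤ 2^t |K| + 2^s |B| - 2^(s+t)`. -/
theorem union_bound (u : Finset α) : ∀ (K B : Finset (Finset α)) (s t : ℕ), (∀ S ∈ K, S ⊆ u) →
    (∀ S ∈ B, S ⊆ u) → IsLowerSet (K : Set (Finset α)) → s + t + 1 = u.card →
    2 ^ s ≤ K.card → 2 ^ t ≤ B.card →
    ((K ⊻ B).card : ℤ) + 2 ^ (s + t) ≤ 2 ^ t * K.card + 2 ^ s * B.card := by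
  induction u using Finset.induction_on with
  | empty =>
    intro K B s t _ _ _ h
    simp at h
  | insert a u ha ih =>
    intro K B s t hKu hBu hK hst hs ht
    rw [card_insert_of_notMem ha] at hst
    have hst' : s + t = u.card := by omega
    have hsZ : ((2:ℤ) ^ s) ≤ K.card := by exact_mod_cast hs
    have htZ : ((2:ℤ) ^ t) ≤ B.card := by exact_mod_cast ht
    have hPpos : (1:ℤ) ≤ 2 ^ s := one_le_pow₀ (by norm_num)
    have hQpos : (1:ℤ) ≤ 2 ^ t := one_le_pow₀ (by norm_num)
    have hDall : ((K ⊻ B).card : ℤ) ≤ 2 * (2 ^ s * 2 ^ t) := by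
      have := card_le_of_subset (insert a u) (K ⊻ B) (sups_subset_ground _ K B hKu hBu)
      rw [card_insert_of_notMem ha, ← hst'] at this
      have h2 : ((K ⊻ B).card : ℤ) ≤ 2 ^ (s + t + 1) := by exact_mod_cast this
      rw [pow_succ, pow_add] at h2
      linarith
    rw [pow_add]
    by_cases hbig1 : 2 * (2:ℤ) ^ s ≤ K.card
    · nlinarith [mul_le_mul_of_nonneg_left hbig1 (by linarith : (0:ℤ) ≤ 2 ^ t),
        mul_le_mul_of_nonneg_left htZ (by linarith : (0:ℤ) ≤ 2 ^ s)]
    by_cases hbig2 : 2 * (2:ℤ) ^ t ≤ B.card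
    · nlinarith [mul_le_mul_of_nonneg_left hbig2 (by linarith : (0:ℤ) ≤ 2 ^ s),
        mul_le_mul_of_nonneg_left hsZ (by linarith : (0:ℤ) ≤ 2 ^ t)]
    push Not at hbig1 hbig2
    -- subfamilies
    set K0 := K.nonMemberSubfamily a with hK0
    set K1 := K.memberSubfamily a with hK1
    set B0 := B.nonMemberSubfamily a with hB0
    set B1 := B.memberSubfamily a with hB1
    have hcK : (K1.card : ℤ) + K0.card = K.card := by
      exact_mod_cast card_memberSubfamily_add_card_nonMemberSubfamily a K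
    have hcB : (B1.card : ℤ) + B0.card = B.card := by
      exact_mod_cast card_memberSubfamily_add_card_nonMemberSubfamily a B
    have hcD : (((K ⊻ B).memberSubfamily a).card : ℤ) + ((K ⊻ B).nonMemberSubfamily a).card =
        (K ⊻ B).card := by
      exact_mod_cast card_memberSubfamily_add_card_nonMemberSubfamily a (K ⊻ B)
    have hK0u : ∀ S ∈ K0, S ⊆ u := by
      intro S hS
      rw [hK0, mem_nonMemberSubfamily] at hS
      exact (subset_insert_iff_of_notMem hS.2).1 (hKu S hS.1)
    have hB0u : ∀ S ∈ B0, S ⊆ u := by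
      intro S hS
      rw [hB0, mem_nonMemberSubfamily] at hS
      exact (subset_insert_iff_of_notMem hS.2).1 (hBu S hS.1)
    have hK1u : ∀ S ∈ K1, S ⊆ u := by
      intro S hS
      rw [hK1, mem_memberSubfamily] at hS
      exact (subset_insert_iff_of_notMem hS.2).1 ((subset_insert a S).trans (hKu _ hS.1))
    have hB1u : ∀ S ∈ B1, S ⊆ u := by
      intro S hS
      rw [hB1, mem_memberSubfamily] at hS
      exact (subset_insert_iff_of_notMem hS.2).1 ((subset_insert a S).trans (hBu _ hS.1))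
    have hK0low : IsLowerSet (K0 : Set (Finset α)) := hK.nonMemberSubfamily
    have hK1low : IsLowerSet (K1 : Set (Finset α)) := hK.memberSubfamily
    have hK10 : K1 ⊆ K0 := hK.memberSubfamily_subset_nonMemberSubfamily
    have hk10 : (K1.card : ℤ) ≤ K0.card := by exact_mod_cast card_le_card hK10
    have hsub0 := sups_nonMember a K B
    have hsub1 := sups_member a K B hK
    have hD0a : (((K ⊻ B).nonMemberSubfamily a).card : ℤ) ≤ (K0 ⊻ B0).card := by
      exact_mod_cast card_le_card hsub0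
    have hD1a : (((K ⊻ B).memberSubfamily a).card : ℤ) ≤ (K1 ⊻ B0).card + (K0 ⊻ B1).card := by
      exact_mod_cast (card_le_card hsub1).trans (card_union_le _ _)
    have hD0b : (((K ⊻ B).nonMemberSubfamily a).card : ℤ) ≤ 2 ^ s * 2 ^ t := by
      have h := card_le_of_subset u ((K ⊻ B).nonMemberSubfamily a) (fun S hS =>
        sups_subset_ground u K0 B0 hK0u hB0u S (hsub0 hS))
      rw [← hst', pow_add] at h
      exact_mod_cast h
    have hD1b : (((K ⊻ B).memberSubfamily a).card : ℤ) ≤ 2 ^ s * 2 ^ t := by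
      have h := card_le_of_subset u ((K ⊻ B).memberSubfamily a) (fun S hS => by
        rcases mem_union.1 (hsub1 hS) with h | h
        · exact sups_subset_ground u K1 B0 hK1u hB0u S h
        · exact sups_subset_ground u K0 B1 hK0u hB1u S h)
      rw [← hst', pow_add] at h
      exact_mod_cast h
    have hp00 : ((K0 ⊻ B0).card : ℤ) ≤ K0.card * B0.card := by exact_mod_cast card_sups_le _ _
    have hp10 : ((K1 ⊻ B0).card : ℤ) ≤ K1.card * B0.card := by exact_mod_cast card_sups_le _ _
    have hp01 : ((K0 ⊻ B1).card : ℤ) ≤ K0.card * B1.card := by exact_mod_cast card_sups_le _ _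
    have hfin := numeric (2 ^ s) (2 ^ t) K0.card K1.card B0.card B1.card
      ((K ⊻ B).nonMemberSubfamily a).card ((K ⊻ B).memberSubfamily a).card
      (K1 ⊻ B0).card (K0 ⊻ B1).card hk10 (by positivity) (by positivity) (by positivity)
      (by linarith) (by linarith) hPpos hQpos (by linarith) (by linarith) hD0b hD1b hD1a
      (hD0a.trans hp00) hp10 hp01
      (by
        rcases s with _ | s
        · left; simp
        · right; exact ⟨2 ^ s, by rw [pow_succ]; ring⟩)
      (by
        rcases t with _ | t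
        · left; simp
        · right; exact ⟨2 ^ t, by rw [pow_succ]; ring⟩)
      (by
        intro P1 hP1 h1 h2
        rcases s with _ | s
        · exfalso; simp at hP1; omega
        · have hP1' : P1 = 2 ^ s := by rw [pow_succ] at hP1; linarith
          subst hP1'
          have := ih K0 B0 s t hK0u hB0u hK0low (by omega) (by exact_mod_cast h1)
            (by exact_mod_cast h2)
          rw [pow_add] at this
          linarith)
      (by
        intro P1 hP1 h1 h2
        rcases s with _ | s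
        · exfalso; simp at hP1; omega
        · have hP1' : P1 = 2 ^ s := by rw [pow_succ] at hP1; linarith
          subst hP1'
          have := ih K1 B0 s t hK1u hB0u hK1low (by omega) (by exact_mod_cast h1)
            (by exact_mod_cast h2)
          rw [pow_add] at this
          linarith)
      (by
        intro Q1 hQ1 h1 h2
        rcases t with _ | t
        · exfalso; simp at hQ1; omega
        · have hQ1' : Q1 = 2 ^ t := by rw [pow_succ] at hQ1; linarith
          subst hQ1'
          have := ih K0 B0 s t hK0u hB0u hK0low (by omega) (by exact_mod_cast h1)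
            (by exact_mod_cast h2)
          rw [pow_add] at this
          linarith)
      (by
        intro Q1 hQ1 h1 h2
        rcases t with _ | t
        · exfalso; simp at hQ1; omega
        · have hQ1' : Q1 = 2 ^ t := by rw [pow_succ] at hQ1; linarith
          subst hQ1'
          have := ih K0 B1 s t hK0u hB1u hK0low (by omega) (by exact_mod_cast h1)
            (by exact_mod_cast h2)
          rw [pow_add] at this
          linarith)
    have e1 : (K0.card : ℤ) + K1.card = K.card := by linarith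
    have e2 : (B0.card : ℤ) + B1.card = B.card := by linarith
    rw [e1, e2] at hfin
    linarith

end Pool.Agent.X7.CrossSperner
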